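import Mathlib

set_option autoImplicit false

/-! # Van der Waerden's theorem in the form used here, and the algebra of the Pell families -/

namespace Pool.Agent.N226.DG

open Finset

/-- Van der Waerden's theorem for progressions of length three with bounded difference. -/
theorem vdw (κ : Type) [Finite κ] : ∃ W : ℕ, ∀ (C : ℕ → κ) (N : ℕ), ∃ n j, N ≤ n ∧ 0 < j ∧ j ≤ W ∧
    C n = C (n + j) ∧ C (n + j) = C (n + 2 * j) := by
  classical
  obtain ⟨ι, _, hι⟩ := Combinatorics.Line.exists_mono_in_high_dimension (Fin 3) κ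
  refine ⟨Fintype.card ι, fun C N => ?_⟩
  obtain ⟨l, c, hl⟩ := hι fun v => C (N + ∑ i, (v i : ℕ))
  set s : Finset ι := {i | l.idxFun i = none} with hs
  have h1 : ∀ (k' : Fin 3), ∑ i ∈ s, (l k' i : ℕ) = s.card * k' := by
    intro k'
    rw [← smul_eq_mul, ← Finset.sum_const]
    refine Finset.sum_congr rfl fun i hi => ?_
    rw [hs, Finset.mem_filter] at hi
    rw [l.apply_none _ _ hi.2]
  have h2 : ∀ k : Fin 3, ∑ i ∈ sᶜ, (l k i : ℕ) = ∑ i ∈ sᶜ, (l 0 i : ℕ) := by
    intro k
    refine Finset.sum_congr rfl fun i hi => ?_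
    rw [hs, Finset.compl_filter, Finset.mem_filter] at hi
    obtain ⟨y, hy⟩ := Option.ne_none_iff_exists.mp hi.2
    simp [← hy, Option.getD]
  have key : ∀ k : Fin 3, ∑ i, (l k i : ℕ) = ∑ i ∈ sᶜ, (l 0 i : ℕ) + s.card * k := by
    intro k
    rw [← Finset.sum_add_sum_compl s, h1, h2]
    ring
  have hc : ∀ k : Fin 3, C (N + ∑ i ∈ sᶜ, (l 0 i : ℕ) + s.card * k) = c := by
    intro k
    have := hl k
    simp only at this
    rw [key k, ← add_assoc] at this
    exact this
  refine ⟨N + ∑ i ∈ sᶜ, (l 0 i : ℕ), s.card, Nat.le_add_right _ _,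
    Finset.card_pos.mpr ⟨l.proper.choose, ?_⟩, Finset.card_le_univ _, ?_, ?_⟩
  · rw [hs, Finset.mem_filter]
    exact ⟨Finset.mem_univ _, l.proper.choose_spec⟩
  · have a0 := hc 0
    have a1 := hc 1
    simp only [Fin.val_zero, mul_zero, add_zero, Fin.val_one, mul_one] at a0 a1
    rw [a0, a1]
  · have a1 := hc 1
    have a2 := hc 2
    simp only [Fin.val_one, mul_one, Fin.val_two] at a1 a2
    rw [a1, mul_comm 2, a2]

/-- If finitely many sets of natural numbers contain, for each difference, only finitely many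
progressions of length three, then they do not cover all large numbers. -/
theorem avoid {κ : Type} [Finite κ] (S : κ → ℕ → Prop)
    (h : ∀ k, ∀ j, 0 < j → ∃ N, ∀ n, N ≤ n → ¬(S k n ∧ S k (n + j) ∧ S k (n + 2 * j))) (N₀ : ℕ) :
    ∃ n, N₀ ≤ n ∧ ∀ k, ¬ S k n := by
  classical
  by_contra hcon
  push Not at hcon
  have : Nonempty κ := ⟨(hcon N₀ le_rfl).choose⟩
  cases nonempty_fintype κ
  obtain ⟨W, hW⟩ := vdw κ
  choose! M hM using h
  choose! C hC using hcon
  set B := N₀ + ∑ k, ∑ j ∈ Finset.range (W + 1), M k j with hB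
  obtain ⟨n, j, hn, hj, hjW, e1, e2⟩ := hW C B
  have hle : M (C n) j ≤ ∑ k, ∑ j ∈ Finset.range (W + 1), M k j := by
    refine le_trans ?_ (Finset.single_le_sum (f := fun k => ∑ j ∈ Finset.range (W + 1), M k j)
      (fun _ _ => Nat.zero_le _) (Finset.mem_univ (C n)))
    exact Finset.single_le_sum (f := fun j => M (C n) j) (fun _ _ => Nat.zero_le _)
      (Finset.mem_range.mpr (by omega))
  refine hM (C n) j hj n (by omega) ⟨hC n (by omega), ?_, ?_⟩
  · rw [e1]; exact hC (n + j) (by omega)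
  · rw [e1, e2]; exact hC (n + 2 * j) (by omega)

/-- The number `x` with `a x + 1 = (t + a u) ^ 2` and `b x + 1 = (t + b u) ^ 2`. -/
def X (a b t u : ℤ) : ℤ := u * (2 * t + (a + b) * u)

lemma X_left (a b t u : ℤ) (h : t ^ 2 = 1 + a * b * u ^ 2) : a * X a b t u + 1 = (t + a * u) ^ 2 := by
  unfold X; linear_combination -h

lemma X_right (a b t u : ℤ) (h : t ^ 2 = 1 + a * b * u ^ 2) :
    b * X a b t u + 1 = (t + b * u) ^ 2 := by
  unfold X; linear_combination -h

lemma ap_id (a b c δ t u T U : ℤ) (ht : t ^ 2 = 1 + a * b * u ^ 2) (hT : T ^ 2 = 1 + a * b * U ^ 2) :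
    (c * X a b (t * T + a * b * (u * U)) (t * U + u * T) + δ) *
      (c * X a b (t * T - a * b * (u * U)) (u * T - t * U) + δ) =
    (c * X a b t u + δ + (2 * a * b * δ - c * (a + b)) * U ^ 2) ^ 2 -
      4 * (c - δ * a) * (c - δ * b) * T ^ 2 * U ^ 2 := by
  unfold X
  grind

end Pool.Agent.N226.DG
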