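import Pool.Agent.N226.DG.A

set_option autoImplicit false

/-! # The two kinds of progressions -/

namespace Pool.Agent.N226.DG

/-- Two squares of integers with a fixed nonzero difference are small. -/
lemma sq_gap (P Q M : ℤ) (hM : M ≠ 0) (hQ : |M| < Q) (h : P ^ 2 = Q ^ 2 - M) : False := by
  have hQ0 : 0 < Q := lt_of_le_of_lt (abs_nonneg M) hQ
  have h1 : |P| ^ 2 = Q ^ 2 - M := by rw [sq_abs]; exact h
  have hP : 0 ≤ |P| := abs_nonneg P
  rcases lt_trichotomy (|P|) Q with hlt | heq | hgt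
  · have : M = Q ^ 2 - |P| ^ 2 := by linarith
    have h2 := le_abs_self M
    nlinarith
  · rw [heq] at h1
    apply hM; linarith
  · have : -M = |P| ^ 2 - Q ^ 2 := by linarith
    have h2 := neg_le_abs M
    nlinarith

/-- The first kind: `c x + δ` is not a square for three terms of a progression. -/
lemma ap1 (a b c δ t u T U : ℤ) (ht : t ^ 2 = 1 + a * b * u ^ 2) (hT : T ^ 2 = 1 + a * b * U ^ 2)
    (hT0 : T ≠ 0) (hU0 : U ≠ 0) (hc1 : c ≠ δ * a) (hc2 : c ≠ δ * b)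
    (hbig : |4 * (c - δ * a) * (c - δ * b) * T ^ 2 * U ^ 2| <
      c * X a b t u + δ + (2 * a * b * δ - c * (a + b)) * U ^ 2)
    (h1 : IsSquare (c * X a b (t * T + a * b * (u * U)) (t * U + u * T) + δ))
    (h2 : IsSquare (c * X a b (t * T - a * b * (u * U)) (u * T - t * U) + δ)) : False := by
  obtain ⟨w1, h1⟩ := h1
  obtain ⟨w2, h2⟩ := h2
  refine sq_gap (w1 * w2) _ _ ?_ hbig ?_
  · refine mul_ne_zero (mul_ne_zero (mul_ne_zero (mul_ne_zero (by norm_num) (sub_ne_zero.mpr hc1))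
      (sub_ne_zero.mpr hc2)) (pow_ne_zero _ hT0)) (pow_ne_zero _ hU0)
  · rw [← ap_id a b c δ t u T U ht hT, h1, h2]
    ring

/-- The distance of an integer from an irrational square root. -/
lemma irr_gap (R L m : ℤ) (r : ℝ) (hr : 0 < r) (hr2 : r ^ 2 = m) (hL : L ≠ 0) (hm : ¬IsSquare m)
    (h : |(R : ℝ) + L * r| < 1 / (1 + 2 * |(L : ℝ)| * r)) : False := by
  have hden : (1 : ℝ) ≤ 1 + 2 * |(L : ℝ)| * r := by
    have := abs_nonneg (L : ℝ)
    nlinarith [mul_nonneg this hr.le]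
  have h1 : |(R : ℝ) + L * r| < 1 := by
    refine lt_of_lt_of_le h ?_
    rw [div_le_one (by linarith)]
    exact hden
  have hne : R ^ 2 - L ^ 2 * m ≠ 0 := by
    intro h0
    apply hm
    have hd : L ^ 2 ∣ R ^ 2 := ⟨m, by linarith⟩
    obtain ⟨k, hk⟩ := (Int.pow_dvd_pow_iff (by norm_num)).mp hd
    refine ⟨k, ?_⟩
    have hL2 : L ^ 2 ≠ 0 := pow_ne_zero _ hL
    apply mul_left_cancel₀ hL2
    rw [hk] at h0
    linarith
  have h2 : (1 : ℝ) ≤ |(R : ℝ) + L * r| * |(R : ℝ) - L * r| := by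
    rw [← abs_mul]
    have : ((R : ℝ) + L * r) * (R - L * r) = ((R ^ 2 - L ^ 2 * m : ℤ) : ℝ) := by
      push_cast
      rw [← hr2]; ring
    rw [this]
    exact_mod_cast Int.one_le_abs hne
  have h3 : |(R : ℝ) - L * r| ≤ |(R : ℝ) + L * r| + 2 * |(L : ℝ)| * r := by
    have : (R : ℝ) - L * r = (R + L * r) - 2 * (L * r) := by ring
    rw [this]
    refine (abs_sub _ _).trans ?_
    rw [abs_mul, abs_mul, abs_of_pos hr]
    simp only [Nat.abs_ofNat]
    linarith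
  have h4 : |(R : ℝ) - L * r| ≤ 1 + 2 * |(L : ℝ)| * r := by linarith
  rw [lt_div_iff₀ (by linarith)] at h
  have h5 := abs_nonneg ((R : ℝ) + L * r)
  nlinarith [mul_le_mul_of_nonneg_left h4 h5]

/-- `g ^ 2 = m y ^ 2 - k`: then `g` is near `√m y`. -/
lemma near (g y m k : ℤ) (r : ℝ) (hr : 1 ≤ r) (hr2 : r ^ 2 = m) (hg : 0 ≤ g) (hy : 0 < y)
    (h : g ^ 2 = m * y ^ 2 - k) : |(g : ℝ) - r * y| ≤ |(k : ℝ)| / y := by
  have hy' : (0 : ℝ) < y := by exact_mod_cast hy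
  have hg' : (0 : ℝ) ≤ g := by exact_mod_cast hg
  rw [le_div_iff₀ hy']
  have h1 : ((g : ℝ) - r * y) * (g + r * y) = -k := by
    have : ((g : ℝ)) ^ 2 = m * y ^ 2 - k := by exact_mod_cast h
    nlinarith [this, hr2]
  have h2 : |(g : ℝ) - r * y| * (g + r * y) = |(k : ℝ)| := by
    rw [← abs_neg (k : ℝ), ← h1, abs_mul, abs_of_nonneg (a := (g : ℝ) + r * y) (by positivity)]
  rw [← h2]
  refine mul_le_mul_of_nonneg_left ?_ (abs_nonneg _)
  nlinarith

/-- The second kind. `4 b w ^ 2 = c y ^ 2 - e` for three terms `y` of a progression with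
`y1 + y2 = 2 T y - 2 L` is impossible if `b c` is not a square and the terms are large. -/
lemma ap2 (b c e T L y y1 y2 w w1 w2 : ℤ) (hb : 0 < b) (hc : 0 < c) (hT : 0 < T)
    (hL : L ≠ 0) (hbc : ¬IsSquare (b * c))
    (hrec : y1 + y2 = 2 * T * y - L)
    (h0 : 4 * b * w ^ 2 = c * y ^ 2 - e) (h1 : 4 * b * w1 ^ 2 = c * y1 ^ 2 - e)
    (h2 : 4 * b * w2 ^ 2 = c * y2 ^ 2 - e) (Y : ℤ) (hY : 0 < Y) (hy : Y ≤ y) (hy1 : Y ≤ y1)
    (hy2 : Y ≤ y2)
    (hbig : |b * e| * (2 + 2 * T) * (1 + 2 * |L| * (b * c + 1)) < Y) : False := by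
  set m := b * c with hm
  have hm1 : 1 ≤ m := by rw [hm]; exact mul_pos hb hc
  set r : ℝ := Real.sqrt m with hrdef
  have hmR : (1 : ℝ) ≤ m := by exact_mod_cast hm1
  have hr2 : r ^ 2 = m := Real.sq_sqrt (by linarith)
  have hr : 1 ≤ r := Real.one_le_sqrt.mpr hmR
  have hrle : r ≤ m + 1 := by nlinarith
  have g0 : (2 * b * |w|) ^ 2 = m * y ^ 2 - b * e := by
    rw [mul_pow, sq_abs, hm]; linear_combination b * h0
  have g1 : (2 * b * |w1|) ^ 2 = m * y1 ^ 2 - b * e := by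
    rw [mul_pow, sq_abs, hm]; linear_combination b * h1
  have g2 : (2 * b * |w2|) ^ 2 = m * y2 ^ 2 - b * e := by
    rw [mul_pow, sq_abs, hm]; linear_combination b * h2
  have n0 := near _ y m _ r hr hr2 (by positivity) (by linarith) g0
  have n1 := near _ y1 m _ r hr hr2 (by positivity) (by linarith) g1
  have n2 := near _ y2 m _ r hr hr2 (by positivity) (by linarith) g2
  have hYR : (0 : ℝ) < Y := by exact_mod_cast hY
  have hk := abs_nonneg (((b * e : ℤ)) : ℝ)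
  have m0 : |(((b * e : ℤ)) : ℝ)| / y ≤ |(((b * e : ℤ)) : ℝ)| / Y :=
    div_le_div_of_nonneg_left hk hYR (by exact_mod_cast hy)
  have m1 : |(((b * e : ℤ)) : ℝ)| / y1 ≤ |(((b * e : ℤ)) : ℝ)| / Y :=
    div_le_div_of_nonneg_left hk hYR (by exact_mod_cast hy1)
  have m2 : |(((b * e : ℤ)) : ℝ)| / y2 ≤ |(((b * e : ℤ)) : ℝ)| / Y :=
    div_le_div_of_nonneg_left hk hYR (by exact_mod_cast hy2)
  set κ := |(((b * e : ℤ)) : ℝ)| / Y with hκ
  have hTR : (0 : ℝ) < T := by exact_mod_cast hT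
  set R : ℤ := 2 * b * |w1| + 2 * b * |w2| - 2 * T * (2 * b * |w|) with hR
  have hsum : |(R : ℝ) + L * r| ≤ κ * (2 + 2 * T) := by
    have hrecR : (y1 : ℝ) + y2 = 2 * T * y - L := by exact_mod_cast hrec
    have e1 : (R : ℝ) + L * r = (((2 * b * |w1| : ℤ) : ℝ) - r * y1) +
        (((2 * b * |w2| : ℤ) : ℝ) - r * y2) - 2 * T * (((2 * b * |w| : ℤ) : ℝ) - r * y) := by
      have : (L : ℝ) = 2 * T * y - y1 - y2 := by linarith
      rw [this, hR]
      push_cast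
      ring
    rw [e1]
    refine (abs_sub _ _).trans ?_
    refine (add_le_add (abs_add_le _ _) le_rfl).trans ?_
    rw [abs_mul, abs_of_pos (a := (2 : ℝ) * T) (by positivity)]
    have : 2 * (T : ℝ) * |((2 * b * |w| : ℤ) : ℝ) - r * y| ≤ 2 * T * κ :=
      mul_le_mul_of_nonneg_left (n0.trans m0) (by positivity)
    linarith [n1.trans m1, n2.trans m2]
  refine irr_gap R L m r (by linarith) hr2 hL hbc (lt_of_le_of_lt hsum ?_)
  have hLR := abs_nonneg (L : ℝ)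
  rw [lt_div_iff₀ (by positivity), hκ, div_mul_eq_mul_div, div_mul_eq_mul_div, div_lt_iff₀ hYR,
    one_mul]
  have hb' : |(((b * e : ℤ)) : ℝ)| * (2 + 2 * T) * (1 + 2 * |(L : ℝ)| * (m + 1)) < Y := by
    exact_mod_cast hbig
  refine lt_of_le_of_lt ?_ hb'
  refine mul_le_mul_of_nonneg_left ?_ (by positivity)
  have := mul_le_mul_of_nonneg_left hrle (mul_nonneg (by norm_num : (0 : ℝ) ≤ 2) hLR)
  linarith

end Pool.Agent.N226.DG
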