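import Pool.Agent.N226.DG.B

set_option autoImplicit false

/-! # The Pell families avoid finitely many labels -/

namespace Pool.Agent.N226.DG

open Pell

lemma exists_even (d : ℤ) (hd : 0 < d) (hs : ¬IsSquare d) :
    ∃ z : Solution₁ d, 1 < z.x ∧ 0 < z.y ∧ 2 ∣ z.y := by
  obtain ⟨s, hx, hy⟩ := Solution₁.exists_pos_of_not_isSquare hd hs
  refine ⟨s * s, ?_, ?_, ?_⟩
  · rw [Solution₁.x_mul]
    have := mul_pos hd (mul_pos hy hy)
    nlinarith
  · rw [Solution₁.y_mul]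
    nlinarith [mul_pos (lt_trans one_pos hx) hy]
  · rw [Solution₁.y_mul]
    exact ⟨s.x * s.y, by ring⟩

section

variable {a b : ℤ} (z : Solution₁ (a * b))

lemma y_ge (hx : 1 < z.x) (hy : 0 < z.y) (n : ℕ) : (n : ℤ) ≤ (z ^ n).y := by
  induction n with
  | zero => simp
  | succ n ih =>
      rw [pow_succ, Solution₁.y_mul]
      have h1 := Solution₁.x_pow_pos (a := z) (by linarith) n
      push_cast
      nlinarith [Int.natCast_nonneg n]

lemma y_even (h : 2 ∣ z.y) (n : ℕ) : 2 ∣ (z ^ n).y := by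
  induction n with
  | zero => simp
  | succ n ih =>
      rw [pow_succ, Solution₁.y_mul]
      exact dvd_add (Dvd.dvd.mul_left h _) (Dvd.dvd.mul_right ih _)

lemma prop' (n : ℕ) : (z ^ n).x ^ 2 = 1 + a * b * (z ^ n).y ^ 2 := (z ^ n).prop_x

lemma x_up (n j : ℕ) : (z ^ (n + 2 * j)).x =
    (z ^ (n + j)).x * (z ^ j).x + a * b * ((z ^ (n + j)).y * (z ^ j).y) := by
  rw [show n + 2 * j = (n + j) + j by ring, pow_add, Solution₁.x_mul]

lemma y_up (n j : ℕ) : (z ^ (n + 2 * j)).y =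
    (z ^ (n + j)).x * (z ^ j).y + (z ^ (n + j)).y * (z ^ j).x := by
  rw [show n + 2 * j = (n + j) + j by ring, pow_add, Solution₁.y_mul]

lemma down (n j : ℕ) : z ^ n = z ^ (n + j) * (z ^ j)⁻¹ := by
  rw [pow_add]; group

lemma x_down (n j : ℕ) : (z ^ n).x =
    (z ^ (n + j)).x * (z ^ j).x - a * b * ((z ^ (n + j)).y * (z ^ j).y) := by
  conv_lhs => rw [down z n j]
  rw [Solution₁.x_mul, Solution₁.x_inv, Solution₁.y_inv]
  ring

lemma y_down (n j : ℕ) : (z ^ n).y =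
    (z ^ (n + j)).y * (z ^ j).x - (z ^ (n + j)).x * (z ^ j).y := by
  conv_lhs => rw [down z n j]
  rw [Solution₁.y_mul, Solution₁.x_inv, Solution₁.y_inv]
  ring

lemma X_ge (ha : 0 < a) (hb : 0 < b) (hx : 1 < z.x) (hy : 0 < z.y) (n : ℕ) :
    (n : ℤ) ≤ X a b (z ^ n).x (z ^ n).y := by
  have h1 := Solution₁.x_pow_pos (a := z) (by linarith) n
  have h2 := y_ge z hx hy n
  have h3 := Int.natCast_nonneg n
  unfold X
  have h4 : 0 ≤ (a + b) * (z ^ n).y := mul_nonneg (by linarith) (by linarith)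
  nlinarith

/-- The first kind of sets. -/
def S1 (c δ : ℤ) (n : ℕ) : Prop := IsSquare (c * X a b (z ^ n).x (z ^ n).y + δ)

/-- The second kind of sets. -/
def S2 (c δ σ : ℤ) (n : ℕ) : Prop :=
  ∃ w : ℤ, 4 * b * w ^ 2 = c * ((z ^ n).x + b * (z ^ n).y + 2 * b * σ) ^ 2 - (c - 4 * b * δ)

lemma rare1 (ha : 0 < a) (hb : 0 < b) (hx : 1 < z.x) (hy : 0 < z.y) (c δ : ℤ) (hc : 0 < c)
    (hδ : 0 ≤ δ) (hc1 : c ≠ δ * a) (hc2 : c ≠ δ * b) (j : ℕ) (hj : 0 < j) :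
    ∃ N : ℕ, ∀ n, N ≤ n → ¬(S1 z c δ n ∧ S1 z c δ (n + j) ∧ S1 z c δ (n + 2 * j)) := by
  set T := (z ^ j).x with hT
  set U := (z ^ j).y with hU
  have hU1 : (j : ℤ) ≤ U := y_ge z hx hy j
  have hT0 : 0 < T := Solution₁.x_pow_pos (a := z) (by linarith) j
  have hU0 : 0 < U := by
    have : (0 : ℤ) < j := by exact_mod_cast hj
    linarith
  refine ⟨(|4 * (c - δ * a) * (c - δ * b) * T ^ 2 * U ^ 2| +
    |(2 * a * b * δ - c * (a + b)) * U ^ 2| + 1).toNat, ?_⟩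
  rintro n hn ⟨h0, -, h2⟩
  have hn' := Int.toNat_le.mp hn
  have hX := X_ge z ha hb hx hy (n + j)
  push_cast at hX
  unfold S1 at h0 h2
  rw [x_up, y_up] at h2
  rw [x_down z n j, y_down z n j] at h0
  refine ap1 a b c δ (z ^ (n + j)).x (z ^ (n + j)).y T U (prop' z _) (prop' z _) hT0.ne' hU0.ne'
    hc1 hc2 ?_ h2 h0
  have e1 := neg_abs_le ((2 * a * b * δ - c * (a + b)) * U ^ 2)
  have e2 : (0 : ℤ) ≤ j := Int.natCast_nonneg j
  have e3 : X a b (z ^ (n + j)).x (z ^ (n + j)).y ≤ c * X a b (z ^ (n + j)).x (z ^ (n + j)).y := by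
    have : 0 ≤ X a b (z ^ (n + j)).x (z ^ (n + j)).y := by
      have := Int.natCast_nonneg n
      linarith
    nlinarith
  linarith

lemma rare2 (ha : 0 < a) (hb : 0 < b) (hx : 1 < z.x) (hy : 0 < z.y) (c δ σ : ℤ) (hc : 0 < c)
    (hbc : ¬IsSquare (b * c)) (hσ : σ = 1 ∨ σ = -1) (j : ℕ) (hj : 0 < j) :
    ∃ N : ℕ, ∀ n, N ≤ n → ¬(S2 z c δ σ n ∧ S2 z c δ σ (n + j) ∧ S2 z c δ σ (n + 2 * j)) := by
  set T := (z ^ j).x with hT
  set U := (z ^ j).y with hU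
  have hU1 : (j : ℤ) ≤ U := y_ge z hx hy j
  have hT0 : 0 < T := Solution₁.x_pow_pos (a := z) (by linarith) j
  have hU0 : 0 < U := by
    have : (0 : ℤ) < j := by exact_mod_cast hj
    linarith
  have hT1 : 1 < T := by
    have h1 : T ^ 2 = 1 + a * b * U ^ 2 := prop' z j
    have : 0 < a * b * U ^ 2 := by positivity
    nlinarith
  set L := 4 * b * σ * (T - 1) with hL
  set e := c - 4 * b * δ with he
  have hL0 : L ≠ 0 := by
    rw [hL]
    refine mul_ne_zero (mul_ne_zero (by positivity) ?_) (by linarith)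
    rcases hσ with h | h <;> rw [h] <;> norm_num
  set K := |b * e| * (2 + 2 * T) * (1 + 2 * |L| * (b * c + 1)) with hK
  have hK0 : 0 ≤ K := by
    have := mul_pos hb hc
    positivity
  refine ⟨(K + 2 * b + 1).toNat, ?_⟩
  rintro n hn ⟨⟨w2, h2⟩, ⟨w, h0⟩, ⟨w1, h1⟩⟩
  have hn' := Int.toNat_le.mp hn
  have big : ∀ k : ℕ, n ≤ k → (n : ℤ) - 2 * b ≤ (z ^ k).x + b * (z ^ k).y + 2 * b * σ := by
    intro k hk
    have e1 := y_ge z hx hy k
    have e2 := Solution₁.x_pow_pos (a := z) (by linarith) k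
    have e3 : (n : ℤ) ≤ k := by exact_mod_cast hk
    have e4 : (z ^ k).y ≤ b * (z ^ k).y := by
      have : 0 ≤ (z ^ k).y := le_trans (Int.natCast_nonneg k) e1
      nlinarith
    have e5 : -(2 * b) ≤ 2 * b * σ := by rcases hσ with h | h <;> rw [h] <;> linarith
    linarith
  refine ap2 b c e T L _ _ _ w w1 w2 hb hc hT0 hL0 hbc ?_ h0 h1 h2 ((n : ℤ) - 2 * b) (by linarith)
    (big _ (by omega)) (big _ (by omega)) (big _ le_rfl) (by linarith)
  rw [x_up, y_up, x_down z n j, y_down z n j, hL]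
  ring

/-- There are arbitrarily large members of the family which avoid finitely many labels. -/
theorem master (ha : 0 < a) (hb : 0 < b) (hx : 1 < z.x) (hy : 0 < z.y) (C D : Finset ℤ)
    (hC : ∀ c ∈ C, 0 < c) (hD : ∀ c ∈ D, 0 < c ∧ ¬IsSquare (b * c)) (N : ℕ) :
    ∃ n, N ≤ n ∧ (∀ c ∈ C, ¬S1 z c 0 n) ∧ (∀ c ∈ C, c ≠ a → c ≠ b → ¬S1 z c 1 n) ∧
      ∀ c ∈ D, ¬S2 z c 0 1 n ∧ ¬S2 z c 1 1 n ∧ ¬S2 z c 0 (-1) n ∧ ¬S2 z c 1 (-1) n := by
  classical
  let S : (({c // c ∈ C} × Bool) ⊕ ({c // c ∈ D} × Bool × Bool)) → ℕ → Prop := fun k n =>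
    match k with
    | Sum.inl (c, false) => S1 z c 0 n
    | Sum.inl (c, true) => ((c : ℤ) ≠ a ∧ (c : ℤ) ≠ b) ∧ S1 z c 1 n
    | Sum.inr (c, false, false) => S2 z c 0 1 n
    | Sum.inr (c, true, false) => S2 z c 1 1 n
    | Sum.inr (c, false, true) => S2 z c 0 (-1) n
    | Sum.inr (c, true, true) => S2 z c 1 (-1) n
  obtain ⟨n, hn, h⟩ := avoid S (by
    rintro (⟨⟨c, hc⟩, (_ | _)⟩ | ⟨⟨c, hc⟩, (_ | _), (_ | _)⟩) j hj
    · exact rare1 z ha hb hx hy c 0 (hC c hc) le_rfl (by have := hC c hc; omega)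
        (by have := hC c hc; omega) j hj
    · by_cases h : c ≠ a ∧ c ≠ b
      · obtain ⟨N, hN⟩ := rare1 z ha hb hx hy c 1 (hC c hc) zero_le_one (by simpa using h.1)
          (by simpa using h.2) j hj
        exact ⟨N, fun n hn h' => hN n hn ⟨h'.1.2, h'.2.1.2, h'.2.2.2⟩⟩
      · exact ⟨0, fun n _ h' => h h'.1.1⟩
    · exact rare2 z ha hb hx hy c 0 1 (hD c hc).1 (hD c hc).2 (Or.inl rfl) j hj
    · exact rare2 z ha hb hx hy c 0 (-1) (hD c hc).1 (hD c hc).2 (Or.inr rfl) j hj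
    · exact rare2 z ha hb hx hy c 1 1 (hD c hc).1 (hD c hc).2 (Or.inl rfl) j hj
    · exact rare2 z ha hb hx hy c 1 (-1) (hD c hc).1 (hD c hc).2 (Or.inr rfl) j hj) N
  refine ⟨n, hn, fun c hc => h (Sum.inl (⟨c, hc⟩, false)),
    fun c hc h1 h2 h3 => h (Sum.inl (⟨c, hc⟩, true)) ⟨⟨h1, h2⟩, h3⟩, fun c hc =>
    ⟨h (Sum.inr (⟨c, hc⟩, false, false)), h (Sum.inr (⟨c, hc⟩, true, false)),
      h (Sum.inr (⟨c, hc⟩, false, true)), h (Sum.inr (⟨c, hc⟩, true, true))⟩⟩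

end

/-- A new label adjacent to two given ones only. -/
theorem extA (a b : ℤ) (ha : 0 < a) (hb : 0 < b) (hab : ¬IsSquare (a * b)) (C : Finset ℤ)
    (hC : ∀ c ∈ C, 0 < c) (B : ℤ) :
    ∃ x, B < x ∧ 0 < x ∧ 4 ∣ x ∧ IsSquare (a * x + 1) ∧ IsSquare (b * x + 1) ∧
      (∀ c ∈ C, ¬IsSquare (c * x)) ∧ ∀ c ∈ C, c ≠ a → c ≠ b → ¬IsSquare (c * x + 1) := by
  obtain ⟨z, hx, hy, he⟩ := exists_even (a * b) (mul_pos ha hb) hab
  obtain ⟨n, hn, h1, h2, -⟩ := master z ha hb hx hy C ∅ hC (by simp) (|B| + 1).toNat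
  have hn' := Int.toNat_le.mp hn
  have hX := X_ge z ha hb hx hy n
  have hB := le_abs_self B
  have hB0 := abs_nonneg B
  refine ⟨X a b (z ^ n).x (z ^ n).y, by linarith, by linarith, ?_, ?_, ?_, ?_, ?_⟩
  · obtain ⟨k, hk⟩ := y_even z he n
    unfold X
    rw [hk]
    exact ⟨k * ((z ^ n).x + (a + b) * k), by ring⟩
  · rw [X_left a b _ _ (prop' z n)]; exact ⟨_, sq _⟩
  · rw [X_right a b _ _ (prop' z n)]; exact ⟨_, sq _⟩
  · intro c hc
    have := h1 c hc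
    unfold S1 at this
    rwa [add_zero] at this
  · intro c hc ca cb
    exact h2 c hc ca cb

/-- New labels for the rest `s, p, q` of a diamond, if one end `t = 4 b` is given. -/
theorem extB (a b : ℤ) (ha : 0 < a) (hb : 0 < b) (hab : ¬IsSquare (a * b)) (C : Finset ℤ)
    (hC : ∀ c ∈ C, 0 < c ∧ ¬IsSquare (b * c)) :
    ∃ x p q : ℤ, 0 < x ∧ 0 < p ∧ 0 < q ∧ IsSquare (a * x + 1) ∧ IsSquare (x * p + 1) ∧
      IsSquare (x * q + 1) ∧ IsSquare (4 * b * p + 1) ∧ IsSquare (4 * b * q + 1) ∧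
      IsSquare (p * q + 1) ∧ ¬IsSquare (4 * b * x) ∧ ¬IsSquare (4 * b * x + 1) ∧
      ∀ c ∈ C, ¬IsSquare (c * x) ∧ ¬IsSquare (c * p) ∧ ¬IsSquare (c * q) ∧
        ¬IsSquare (c * p + 1) ∧ ¬IsSquare (c * q + 1) ∧ (c ≠ a → ¬IsSquare (c * x + 1)) := by
  classical
  obtain ⟨z, hx, hy, he⟩ := exists_even (a * b) (mul_pos ha hb) hab
  obtain ⟨n, hn, h1, h2, h3⟩ := master z ha hb hx hy (insert (4 * b) C) C (by
    intro c hc
    rcases Finset.mem_insert.mp hc with h | h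
    · rw [h]; positivity
    · exact (hC c h).1) hC (4 * b + 4).toNat
  have hn' := Int.toNat_le.mp hn
  have hX := X_ge z ha hb hx hy n
  set t := (z ^ n).x with ht
  set u := (z ^ n).y with hu
  have hp : t ^ 2 = 1 + a * b * u ^ 2 := prop' z n
  have hu1 : (n : ℤ) ≤ u := y_ge z hx hy n
  have ht1 : 0 < t := Solution₁.x_pow_pos (a := z) (by linarith) n
  set v := t + b * u with hv
  have hv1 : 4 * b + 4 ≤ v := by
    have : u ≤ b * u := by nlinarith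
    rw [hv]; linarith
  have hb1 : b ≠ 4 * b := by omega
  obtain ⟨x0, hx0⟩ : (4 : ℤ) ∣ X a b t u := by
    obtain ⟨k, hk⟩ := y_even z he n
    unfold X
    rw [hu, hk]
    exact ⟨k * (t + (a + b) * k), by ring⟩
  have hvX : 4 * b * x0 + 1 = v ^ 2 := by
    rw [← X_right a b t u hp, hx0]; ring
  have hx0p : 0 < x0 := by
    by_contra h
    push Not at h
    have : 4 * x0 ≤ 0 := by linarith
    linarith
  -- `4 b p + 1 = (v + 2 b) ^ 2`
  have ep : 4 * b * (x0 + b + v) + 1 = (v + 2 * b) ^ 2 := by linear_combination hvX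
  have eq' : 4 * b * (x0 + b - v) + 1 = (v - 2 * b) ^ 2 := by linear_combination hvX
  have epq : (x0 + b + v) * (x0 + b - v) + 1 = (x0 - b) ^ 2 := by linear_combination hvX
  have esp : 4 * x0 * (x0 + b + v) + 1 = (2 * x0 + v) ^ 2 := by linear_combination hvX
  have esq : 4 * x0 * (x0 + b - v) + 1 = (2 * x0 - v) ^ 2 := by linear_combination hvX
  have hq0 : 0 < x0 + b - v := by
    have h4 : 1 < (v - 2 * b) ^ 2 := by nlinarith
    have h5 : 0 < 4 * b * (x0 + b - v) := by linarith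
    exact (mul_pos_iff_of_pos_left (by positivity)).mp h5
  refine ⟨X a b t u, x0 + b + v, x0 + b - v, by rw [hx0]; linarith, by linarith, hq0, ?_, ?_, ?_, ?_,
    ?_, ?_, ?_, ?_, ?_⟩
  · rw [X_left a b _ _ hp]; exact ⟨_, sq _⟩
  · rw [hx0, esp]; exact ⟨_, sq _⟩
  · rw [hx0, esq]; exact ⟨_, sq _⟩
  · rw [ep]; exact ⟨_, sq _⟩
  · rw [eq']; exact ⟨_, sq _⟩
  · rw [epq]; exact ⟨_, sq _⟩
  · have := h1 (4 * b) (Finset.mem_insert_self _ _)
    unfold S1 at this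
    rwa [add_zero] at this
  · refine h2 (4 * b) (Finset.mem_insert_self _ _) ?_ (Ne.symm hb1)
    intro h
    apply hab
    rw [← h]
    exact ⟨2 * b, by ring⟩
  · intro c hc
    have hcb : c ≠ b := by
      intro h
      apply (hC c hc).2
      rw [h]; exact ⟨b, rfl⟩
    obtain ⟨k1, k2, k3, k4⟩ := h3 c hc
    refine ⟨?_, ?_, ?_, ?_, ?_, fun h => h2 c (Finset.mem_insert_of_mem hc) h hcb⟩
    · have := h1 c (Finset.mem_insert_of_mem hc)
      unfold S1 at this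
      rwa [add_zero] at this
    · rintro ⟨w, hw⟩
      exact k1 ⟨w, by rw [← ht, ← hu, ← hv]; linear_combination 4 * b * hw * (-1) + c * ep⟩
    · rintro ⟨w, hw⟩
      exact k3 ⟨w, by rw [← ht, ← hu, ← hv]; linear_combination 4 * b * hw * (-1) + c * eq'⟩
    · rintro ⟨w, hw⟩
      exact k2 ⟨w, by rw [← ht, ← hu, ← hv]; linear_combination 4 * b * hw * (-1) + c * ep⟩
    · rintro ⟨w, hw⟩
      exact k4 ⟨w, by rw [← ht, ← hu, ← hv]; linear_combination 4 * b * hw * (-1) + c * eq'⟩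

end Pool.Agent.N226.DG
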