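import Pool.Agent.N226.DG.K

set_option autoImplicit false

/-! # Labelling graphs -/

namespace Pool.Agent.N226.DG

open Finset

variable {V : Type} [DecidableEq V] (G : SimpleGraph V)

/-- `f` labels the graph induced on `S`. -/
def Lab (S : Finset V) (f : V → ℤ) : Prop :=
  (∀ v ∈ S, 0 < f v) ∧ ∀ u ∈ S, ∀ v ∈ S, u ≠ v →
    ¬IsSquare (f u * f v) ∧ (G.Adj u v ↔ IsSquare (f u * f v + 1))

/-- Adding a vertex. -/
lemma Lab.ins {S : Finset V} {f : V → ℤ} (h : Lab G S f) (v : V) (hv : v ∉ S) (x : ℤ) (hx : 0 < x)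
    (hs : ∀ c ∈ S, ¬IsSquare (f c * x) ∧ (G.Adj c v ↔ IsSquare (f c * x + 1))) :
    Lab G (insert v S) (Function.update f v x) := by
  have hf : ∀ c ∈ S, Function.update f v x c = f c := by
    intro c hc
    exact Function.update_of_ne (by rintro rfl; exact hv hc) _ _
  have hv' : Function.update f v x v = x := Function.update_self _ _ _
  refine ⟨?_, ?_⟩
  · intro u hu0
    rcases Finset.mem_insert.mp hu0 with h1 | hu
    · rw [h1, hv']; exact hx
    · rw [hf u hu]; exact h.1 u hu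
  · intro u hu0 w hw0 huw
    rcases Finset.mem_insert.mp hu0 with h1 | hu
    · rcases Finset.mem_insert.mp hw0 with h2 | hw
      · exact absurd (h1.trans h2.symm) huw
      · rw [h1, hv', hf w hw, mul_comm, G.adj_comm]
        exact hs w hw
    · rcases Finset.mem_insert.mp hw0 with h2 | hw
      · rw [h2, hv', hf u hu]
        exact hs u hu
      · rw [hf u hu, hf w hw]
        exact h.2 u hu w hw huw

lemma dummy (L : Finset ℤ) (a : ℤ) (ha : 0 < a) : ∃ b, 0 < b ∧ b ∉ L ∧ ¬IsSquare (a * b) := by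
  set M : ℤ := 1 + ∑ l ∈ L, |l| with hM
  have hM1 : 1 ≤ M := by
    have : 0 ≤ ∑ l ∈ L, |l| := Finset.sum_nonneg fun _ _ => abs_nonneg _
    linarith
  refine ⟨a * (M ^ 2 + 1), by positivity, ?_, ?_⟩
  · intro hmem
    have h1 : |a * (M ^ 2 + 1)| ≤ ∑ l ∈ L, |l| :=
      Finset.single_le_sum (f := fun l => |l|) (fun _ _ => abs_nonneg _) hmem
    have h2 := le_abs_self (a * (M ^ 2 + 1))
    nlinarith
  · rintro ⟨k, hk⟩
    have hd : a ^ 2 ∣ k ^ 2 := ⟨M ^ 2 + 1, by linear_combination -hk⟩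
    obtain ⟨m, hm⟩ := (Int.pow_dvd_pow_iff (by norm_num)).mp hd
    have ha2 : a ^ 2 ≠ 0 := pow_ne_zero _ ha.ne'
    have h3 : M ^ 2 + 1 = m ^ 2 := by
      apply mul_left_cancel₀ ha2
      rw [hm] at hk
      linear_combination hk
    have h4 : |m| ^ 2 = M ^ 2 + 1 := by rw [sq_abs]; exact h3.symm
    have h5 := abs_nonneg m
    rcases lt_or_ge (|m|) (M + 1) with h | h
    · have : |m| ≤ M := by linarith [Int.lt_add_one_iff.mp h]
      nlinarith
    · nlinarith


open Classical in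
lemma two {S : Finset V} {f : V → ℤ} (h : Lab G S f) (v : V)
    (hcard : (S.filter fun c => G.Adj c v).card ≤ 2) :
    ∃ a b : ℤ, 0 < a ∧ 0 < b ∧ ¬IsSquare (a * b) ∧ ∀ c ∈ S, (f c = a ∨ f c = b) ↔ G.Adj c v := by
  have inj : ∀ u ∈ S, ∀ w ∈ S, f u = f w → u = w := by
    intro u hu w hw e
    by_contra hne
    apply (h.2 u hu w hw hne).1
    rw [e]; exact ⟨_, rfl⟩
  have hcases : (S.filter fun c => G.Adj c v).card = 0 ∨ (S.filter fun c => G.Adj c v).card = 1 ∨
      (S.filter fun c => G.Adj c v).card = 2 := by omega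
  rcases hcases with h0 | h1 | h2
  · rw [Finset.card_eq_zero] at h0
    obtain ⟨a, ha, haS, -⟩ := dummy (S.image f) 1 one_pos
    obtain ⟨b, hb, hbS, hab⟩ := dummy (S.image f) a ha
    refine ⟨a, b, ha, hb, hab, fun c hc => ⟨?_, ?_⟩⟩
    · rintro (e | e)
      · exact absurd (Finset.mem_image.mpr ⟨c, hc, e⟩) haS
      · exact absurd (Finset.mem_image.mpr ⟨c, hc, e⟩) hbS
    · intro hadj
      have : c ∈ S.filter fun c => G.Adj c v := Finset.mem_filter.mpr ⟨hc, hadj⟩
      rw [h0] at this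
      simp at this
  · obtain ⟨n, hn⟩ := Finset.card_eq_one.mp h1
    have hnS : n ∈ S.filter fun c => G.Adj c v := by rw [hn]; simp
    rw [Finset.mem_filter] at hnS
    obtain ⟨b, hb, hbS, hab⟩ := dummy (S.image f) (f n) (h.1 n hnS.1)
    refine ⟨f n, b, h.1 n hnS.1, hb, hab, fun c hc => ⟨?_, ?_⟩⟩
    · rintro (e | e)
      · rw [inj c hc n hnS.1 e]; exact hnS.2
      · exact absurd (Finset.mem_image.mpr ⟨c, hc, e⟩) hbS
    · intro hadj
      have : c ∈ S.filter fun c => G.Adj c v := Finset.mem_filter.mpr ⟨hc, hadj⟩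
      rw [hn, Finset.mem_singleton] at this
      exact Or.inl (by rw [this])
  · obtain ⟨n, m, hnm, hn⟩ := Finset.card_eq_two.mp h2
    have hnS : n ∈ S.filter fun c => G.Adj c v := by rw [hn]; simp
    have hmS : m ∈ S.filter fun c => G.Adj c v := by rw [hn]; simp
    rw [Finset.mem_filter] at hnS hmS
    refine ⟨f n, f m, h.1 n hnS.1, h.1 m hmS.1, (h.2 n hnS.1 m hmS.1 hnm).1, fun c hc => ⟨?_, ?_⟩⟩
    · rintro (e | e)
      · rw [inj c hc n hnS.1 e]; exact hnS.2
      · rw [inj c hc m hmS.1 e]; exact hmS.2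
    · intro hadj
      have : c ∈ S.filter fun c => G.Adj c v := Finset.mem_filter.mpr ⟨hc, hadj⟩
      rw [hn, Finset.mem_insert, Finset.mem_singleton] at this
      rcases this with rfl | rfl
      · exact Or.inl rfl
      · exact Or.inr rfl

open Classical in
/-- Adding a vertex with at most two neighbours; the label can be large and divisible by four. -/
lemma step1 {S : Finset V} {f : V → ℤ} (h : Lab G S f) (v : V) (hv : v ∉ S)
    (hcard : (S.filter fun c => G.Adj c v).card ≤ 2) (B : ℤ) :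
    ∃ x, B < x ∧ 4 ∣ x ∧ Lab G (insert v S) (Function.update f v x) := by
  obtain ⟨a, b, ha, hb, hab, hiff⟩ := two G h v hcard
  obtain ⟨x, hB, hx, h4, h1, h2, h3, h5⟩ := extA a b ha hb hab (S.image f) (by
    intro c hc
    obtain ⟨u, hu, rfl⟩ := Finset.mem_image.mp hc
    exact h.1 u hu) B
  refine ⟨x, hB, h4, h.ins G v hv x hx fun c hc => ⟨h3 _ (Finset.mem_image_of_mem f hc), ?_⟩⟩
  rw [← hiff c hc]
  constructor
  · rintro (e | e)
    · rw [e]; exact h1
    · rw [e]; exact h2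
  · intro hsq
    by_contra hcon
    push Not at hcon
    exact h5 _ (Finset.mem_image_of_mem f hc) hcon.1 hcon.2 hsq

end Pool.Agent.N226.DG
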