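import Pool.Agent.N226.DG.D

set_option autoImplicit false

/-! # The main induction -/

namespace Pool.Agent.N226.DG

open Finset

lemma nsq (m : ℤ) (hm : 0 < m) (h : IsSquare (m + 1)) : ¬IsSquare m := by
  rintro ⟨k, hk⟩
  obtain ⟨l, hl⟩ := h
  have h1 : |l| ^ 2 = |k| ^ 2 + 1 := by rw [sq_abs, sq_abs]; linarith
  have hk0 : 0 < |k| := abs_pos.mpr (by rintro rfl; linarith)
  have hl0 := abs_nonneg l
  rcases lt_or_ge (|l|) (|k| + 1) with h | h
  · have : |l| ≤ |k| := Int.lt_add_one_iff.mp h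
    nlinarith
  · nlinarith

lemma nsq4 (b c : ℤ) (h : ¬IsSquare (c * (4 * b))) : ¬IsSquare (b * c) := by
  rintro ⟨k, hk⟩
  exact h ⟨2 * k, by linear_combination 4 * hk⟩

variable {V : Type} [DecidableEq V] (G : SimpleGraph V)

lemma Lab.ins' {S : Finset V} {f : V → ℤ} (h : Lab G S f) (v : V) (hv : v ∉ S) (x : ℤ) (hx : 0 < x)
    (hs : ∀ c ∈ S, ¬IsSquare (f c * x) ∧ (G.Adj c v ↔ IsSquare (f c * x + 1))) :
    ∃ f', Lab G (insert v S) f' ∧ f' v = x ∧ ∀ c ∈ S, f' c = f c :=
  ⟨_, h.ins G v hv x hx hs, Function.update_self _ _ _, fun c hc => by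
    exact Function.update_of_ne (by rintro rfl; exact hv hc) _ _⟩

open Classical in
lemma step2 {S : Finset V} {f : V → ℤ} (h : Lab G S f) (s p q t : V) (hs : s ∉ S) (hp : p ∉ S)
    (hq : q ∉ S) (ht : t ∉ S) (hst : s ≠ t) (apq : G.Adj p q) (asp : G.Adj s p) (asq : G.Adj s q)
    (atp : G.Adj t p) (atq : G.Adj t q) (nst : ¬G.Adj t s)
    (hcard : (S.filter fun c => G.Adj c t).card ≤ 2) (s' : V) (hs'S : s' ∈ S)
    (hs' : ∀ c ∈ S, G.Adj c s ↔ c = s') (hp' : ∀ c ∈ S, ¬G.Adj c p) (hq' : ∀ c ∈ S, ¬G.Adj c q) :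
    ∃ f', Lab G (insert p (insert q (insert s (insert t S)))) f' := by
  obtain ⟨xt, hB, ⟨b, rfl⟩, hL⟩ := step1 G h t ht hcard 0
  set f1 := Function.update f t (4 * b) with hf1
  have f1t : f1 t = 4 * b := Function.update_self _ _ _
  have f1c : ∀ c ∈ S, f1 c = f c := fun c hc => by
    exact Function.update_of_ne (by rintro rfl; exact ht hc) _ _
  have hb : 0 < b := by linarith
  have hbc : ∀ c ∈ S, ¬IsSquare (b * f c) := by
    intro c hc
    apply nsq4
    have := (hL.2 c (mem_insert_of_mem hc) t (mem_insert_self _ _) (by rintro rfl; exact ht hc)).1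
    rwa [f1t, f1c c hc] at this
  obtain ⟨x, P, Q, hx, hP, hQ, e1, e2, e3, e4, e5, e6, e7, e8, e9⟩ :=
    extB (f s') b (h.1 s' hs'S) hb (by rw [mul_comm]; exact hbc s' hs'S) (S.image f) (by
      intro c hc
      obtain ⟨u, hu, rfl⟩ := Finset.mem_image.mp hc
      exact ⟨h.1 u hu, hbc u hu⟩)
  have inj : ∀ c ∈ S, c ≠ s' → f c ≠ f s' := by
    intro c hc hne e
    apply (h.2 c hc s' hs'S hne).1
    rw [e]; exact ⟨_, rfl⟩
  obtain ⟨f2, hL2, f2s, f2c⟩ := hL.ins' G s (by simp [hs, hst]) x hx (by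
    intro c hc
    rcases Finset.mem_insert.mp hc with rfl | hc
    · rw [f1t]
      exact ⟨e7, iff_of_false nst e8⟩
    · rw [f1c c hc]
      have e9' := e9 (f c) (mem_image_of_mem f hc)
      refine ⟨e9'.1, ?_⟩
      by_cases hcs : c = s'
      · rw [hcs]
        exact iff_of_true ((hs' s' hs'S).mpr rfl) e1
      · exact iff_of_false (fun h' => hcs ((hs' c hc).mp h')) (e9'.2.2.2.2.2 (inj c hc hcs)))
  have f2t : f2 t = 4 * b := by rw [f2c t (mem_insert_self _ _), f1t]
  have f2S : ∀ c ∈ S, f2 c = f c := fun c hc => by rw [f2c c (mem_insert_of_mem hc), f1c c hc]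
  obtain ⟨f3, hL3, f3q, f3c⟩ := hL2.ins' G q (by
      simp only [Finset.mem_insert, not_or]
      exact ⟨asq.ne', atq.ne', hq⟩) Q hQ (by
    intro c hc
    rcases Finset.mem_insert.mp hc with rfl | hc
    · rw [f2s]
      exact ⟨nsq _ (by positivity) e3, iff_of_true asq e3⟩
    · rcases Finset.mem_insert.mp hc with rfl | hc
      · rw [f2t]
        exact ⟨nsq _ (by positivity) e5, iff_of_true atq e5⟩
      · rw [f2S c hc]
        have e9' := e9 (f c) (mem_image_of_mem f hc)
        exact ⟨e9'.2.2.1, iff_of_false (hq' c hc) e9'.2.2.2.2.1⟩)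
  have f3s : f3 s = x := by rw [f3c s (mem_insert_self _ _), f2s]
  have f3t : f3 t = 4 * b := by rw [f3c t (mem_insert_of_mem (mem_insert_self _ _)), f2t]
  have f3S : ∀ c ∈ S, f3 c = f c := fun c hc => by
    rw [f3c c (mem_insert_of_mem (mem_insert_of_mem hc)), f2S c hc]
  obtain ⟨f4, hL4, -, -⟩ := hL3.ins' G p (by
      simp only [Finset.mem_insert, not_or]
      exact ⟨apq.ne, asp.ne', atp.ne', hp⟩) P hP (by
    intro c hc
    rcases Finset.mem_insert.mp hc with rfl | hc
    · rw [f3q]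
      rw [mul_comm] at e6
      exact ⟨nsq _ (by positivity) e6, iff_of_true apq.symm e6⟩
    · rcases Finset.mem_insert.mp hc with rfl | hc
      · rw [f3s]
        exact ⟨nsq _ (by positivity) e2, iff_of_true asp e2⟩
      · rcases Finset.mem_insert.mp hc with rfl | hc
        · rw [f3t]
          exact ⟨nsq _ (by positivity) e4, iff_of_true atp e4⟩
        · rw [f3S c hc]
          have e9' := e9 (f c) (mem_image_of_mem f hc)
          exact ⟨e9'.2.1, iff_of_false (hp' c hc) e9'.2.2.2.1⟩)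
  exact ⟨f4, hL4⟩

open Classical in
lemma stepK {S : Finset V} {f : V → ℤ} (h : Lab G S f) (s p q t : V) (hs : s ∉ S) (hp : p ∉ S)
    (hq : q ∉ S) (ht : t ∉ S) (apq : G.Adj p q) (asp : G.Adj s p) (asq : G.Adj s q)
    (atp : G.Adj t p) (atq : G.Adj t q) (ats : G.Adj t s)
    (hcard : (S.filter fun c => G.Adj c t).card ≤ 2)
    (hs' : ∀ c ∈ S, ¬G.Adj c s) (hp' : ∀ c ∈ S, ¬G.Adj c p) (hq' : ∀ c ∈ S, ¬G.Adj c q) :
    ∃ f', Lab G (insert p (insert q (insert s (insert t S)))) f' := by
  obtain ⟨xt, hB, ⟨b, rfl⟩, hL⟩ := step1 G h t ht hcard 0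
  set f1 := Function.update f t (4 * b) with hf1
  have f1t : f1 t = 4 * b := Function.update_self _ _ _
  have f1c : ∀ c ∈ S, f1 c = f c := fun c hc => by
    exact Function.update_of_ne (by rintro rfl; exact ht hc) _ _
  have hb : 0 < b := by linarith
  have hbc : ∀ c ∈ S, ¬IsSquare (b * f c) := by
    intro c hc
    apply nsq4
    have := (hL.2 c (mem_insert_of_mem hc) t (mem_insert_self _ _) (by rintro rfl; exact ht hc)).1
    rwa [f1t, f1c c hc] at this
  obtain ⟨x, P, Q, hx, hP, hQ, e1, e4, e5, e2, e3, e6, e9⟩ :=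
    extK b hb (S.image f) (by
      intro c hc
      obtain ⟨u, hu, rfl⟩ := Finset.mem_image.mp hc
      exact ⟨h.1 u hu, hbc u hu⟩)
  obtain ⟨f2, hL2, f2s, f2c⟩ := hL.ins' G s (by
      simp only [Finset.mem_insert, not_or]
      exact ⟨ats.ne', hs⟩) x hx (by
    intro c hc
    rcases Finset.mem_insert.mp hc with rfl | hc
    · rw [f1t]
      exact ⟨nsq _ (by positivity) e1, iff_of_true ats e1⟩
    · rw [f1c c hc]
      have e9' := e9 (f c) (mem_image_of_mem f hc)
      exact ⟨e9'.1, iff_of_false (hs' c hc) e9'.2.2.2.1⟩)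
  have f2t : f2 t = 4 * b := by rw [f2c t (mem_insert_self _ _), f1t]
  have f2S : ∀ c ∈ S, f2 c = f c := fun c hc => by rw [f2c c (mem_insert_of_mem hc), f1c c hc]
  obtain ⟨f3, hL3, f3q, f3c⟩ := hL2.ins' G q (by
      simp only [Finset.mem_insert, not_or]
      exact ⟨asq.ne', atq.ne', hq⟩) Q hQ (by
    intro c hc
    rcases Finset.mem_insert.mp hc with rfl | hc
    · rw [f2s]
      exact ⟨nsq _ (by positivity) e3, iff_of_true asq e3⟩
    · rcases Finset.mem_insert.mp hc with rfl | hc
      · rw [f2t]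
        exact ⟨nsq _ (by positivity) e5, iff_of_true atq e5⟩
      · rw [f2S c hc]
        have e9' := e9 (f c) (mem_image_of_mem f hc)
        exact ⟨e9'.2.2.1, iff_of_false (hq' c hc) e9'.2.2.2.2.2⟩)
  have f3s : f3 s = x := by rw [f3c s (mem_insert_self _ _), f2s]
  have f3t : f3 t = 4 * b := by rw [f3c t (mem_insert_of_mem (mem_insert_self _ _)), f2t]
  have f3S : ∀ c ∈ S, f3 c = f c := fun c hc => by
    rw [f3c c (mem_insert_of_mem (mem_insert_of_mem hc)), f2S c hc]
  obtain ⟨f4, hL4, -, -⟩ := hL3.ins' G p (by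
      simp only [Finset.mem_insert, not_or]
      exact ⟨apq.ne, asp.ne', atp.ne', hp⟩) P hP (by
    intro c hc
    rcases Finset.mem_insert.mp hc with rfl | hc
    · rw [f3q]
      rw [mul_comm] at e6
      exact ⟨nsq _ (by positivity) e6, iff_of_true apq.symm e6⟩
    · rcases Finset.mem_insert.mp hc with rfl | hc
      · rw [f3s]
        exact ⟨nsq _ (by positivity) e2, iff_of_true asp e2⟩
      · rcases Finset.mem_insert.mp hc with rfl | hc
        · rw [f3t]
          exact ⟨nsq _ (by positivity) e4, iff_of_true atp e4⟩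
        · rw [f3S c hc]
          have e9' := e9 (f c) (mem_image_of_mem f hc)
          exact ⟨e9'.2.1, iff_of_false (hp' c hc) e9'.2.2.2.2.1⟩)
  exact ⟨f4, hL4⟩

open Classical in
theorem main [Fintype V] (hdeg : ∀ v, (univ.filter fun c => G.Adj c v).card ≤ 3)
    (hdia : ∀ S : Finset V, S.Nonempty → (∀ v ∈ S, (S.filter fun c => G.Adj c v).card = 3) →
      ∃ s ∈ S, ∃ p ∈ S, ∃ q ∈ S, ∃ t ∈ S, s ≠ t ∧ G.Adj p q ∧ G.Adj s p ∧ G.Adj s q ∧ G.Adj t p ∧
        G.Adj t q) (n : ℕ) : ∀ S : Finset V, S.card = n → ∃ f, Lab G S f := by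
  induction n using Nat.strong_induction_on with
  | _ n ih =>
  intro S hSn
  rcases S.eq_empty_or_nonempty with rfl | hne
  · exact ⟨fun _ => 1, by simp, by simp⟩
  by_cases hlow : ∃ v ∈ S, (S.filter fun c => G.Adj c v).card ≤ 2
  · obtain ⟨v, hv, hc⟩ := hlow
    obtain ⟨f, hf⟩ := ih (S.erase v).card (by rw [← hSn]; exact Finset.card_erase_lt_of_mem hv) _ rfl
    obtain ⟨x, -, -, hx⟩ := step1 G hf v (Finset.notMem_erase v S)
      ((Finset.card_le_card (Finset.filter_subset_filter _ (Finset.erase_subset v S))).trans hc) 0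
    rw [Finset.insert_erase hv] at hx
    exact ⟨_, hx⟩
  · push Not at hlow
    have h3 : ∀ v ∈ S, (S.filter fun c => G.Adj c v).card = 3 := by
      intro v hv
      have h1 := hlow v hv
      have h2 := (Finset.card_le_card (Finset.filter_subset_filter (fun c => G.Adj c v)
        (Finset.subset_univ S))).trans (hdeg v)
      omega
    obtain ⟨s, hs, p, hp, q, hq, t, ht, hst, apq, asp, asq, atp, atq⟩ := hdia S hne h3
    set S' := (((S.erase t).erase s).erase q).erase p with hS'
    have memS' : ∀ c, c ∈ S' ↔ c ≠ p ∧ c ≠ q ∧ c ≠ s ∧ c ≠ t ∧ c ∈ S := by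
      intro c; rw [hS']; simp only [Finset.mem_erase]
    have hins : insert p (insert q (insert s (insert t S'))) = S := by
      ext c
      simp only [Finset.mem_insert, memS']
      constructor
      · rintro (rfl | rfl | rfl | rfl | h)
        · exact hp
        · exact hq
        · exact hs
        · exact ht
        · exact h.2.2.2.2
      · intro hc
        by_cases h1 : c = p
        · exact Or.inl h1
        by_cases h2 : c = q
        · exact Or.inr (Or.inl h2)
        by_cases h3 : c = s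
        · exact Or.inr (Or.inr (Or.inl h3))
        by_cases h4 : c = t
        · exact Or.inr (Or.inr (Or.inr (Or.inl h4)))
        exact Or.inr (Or.inr (Or.inr (Or.inr ⟨h1, h2, h3, h4, hc⟩)))
    have hlt : S'.card < n := by
      rw [← hSn]
      refine Finset.card_lt_card ⟨fun c hc => ((memS' c).mp hc).2.2.2.2, fun h => ?_⟩
      exact ((memS' p).mp (h hp)).1 rfl
    obtain ⟨f, hf⟩ := ih S'.card hlt S' rfl
    have nin : ∀ (v a b c : V), v ∈ S → a ∈ S → b ∈ S → c ∈ S → a ≠ b → a ≠ c → b ≠ c →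
        G.Adj a v → G.Adj b v → G.Adj c v → ∀ d ∈ S, G.Adj d v → d = a ∨ d = b ∨ d = c := by
      intro v a b c hv ha hb hc hab hac hbc h1 h2 h3' d hd h4
      have hsub : ({a, b, c} : Finset V) ⊆ S.filter fun c => G.Adj c v := by
        intro e he
        simp only [Finset.mem_insert, Finset.mem_singleton] at he
        rcases he with rfl | rfl | rfl
        · exact Finset.mem_filter.mpr ⟨ha, h1⟩
        · exact Finset.mem_filter.mpr ⟨hb, h2⟩
        · exact Finset.mem_filter.mpr ⟨hc, h3'⟩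
      have heq := Finset.eq_of_subset_of_card_le hsub (by
        rw [h3 v hv, Finset.card_eq_three.mpr ⟨a, b, c, hab, hac, hbc, rfl⟩])
      have : d ∈ ({a, b, c} : Finset V) := by
        rw [heq]; exact Finset.mem_filter.mpr ⟨hd, h4⟩
      simpa using this
    have hp' : ∀ c ∈ S', ¬G.Adj c p := by
      intro c hc hadj
      obtain ⟨h1, h2, h3', h4, h5⟩ := (memS' c).mp hc
      rcases nin p q s t hp hq hs ht asq.ne' atq.ne' hst apq.symm asp atp c h5 hadj with h | h | h
      · exact h2 h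
      · exact h3' h
      · exact h4 h
    have hq' : ∀ c ∈ S', ¬G.Adj c q := by
      intro c hc hadj
      obtain ⟨h1, h2, h3', h4, h5⟩ := (memS' c).mp hc
      rcases nin q p s t hq hp hs ht asp.ne' atp.ne' hst apq asq atq c h5 hadj with h | h | h
      · exact h1 h
      · exact h3' h
      · exact h4 h
    have hcard : (S'.filter fun c => G.Adj c t).card ≤ 2 := by
      have hsub : (S'.filter fun c => G.Adj c t) ⊆ (S.filter fun c => G.Adj c t).erase p := by
        intro c hc
        obtain ⟨h1, h2⟩ := Finset.mem_filter.mp hc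
        exact Finset.mem_erase.mpr ⟨((memS' c).mp h1).1,
          Finset.mem_filter.mpr ⟨((memS' c).mp h1).2.2.2.2, h2⟩⟩
      have := Finset.card_le_card hsub
      rw [Finset.card_erase_of_mem (Finset.mem_filter.mpr ⟨hp, atp.symm⟩), h3 t ht] at this
      exact this
    have n1 : s ∉ S' := fun h => ((memS' s).mp h).2.2.1 rfl
    have n2 : p ∉ S' := fun h => ((memS' p).mp h).1 rfl
    have n3 : q ∉ S' := fun h => ((memS' q).mp h).2.1 rfl
    have n4 : t ∉ S' := fun h => ((memS' t).mp h).2.2.2.1 rfl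
    rw [← hins]
    by_cases ats : G.Adj t s
    · refine stepK G hf s p q t n1 n2 n3 n4 apq asp asq atp atq ats hcard ?_ hp' hq'
      intro c hc hadj
      obtain ⟨h1, h2, h3', h4, h5⟩ := (memS' c).mp hc
      rcases nin s p q t hs hp hq ht apq.ne atp.ne' atq.ne' asp.symm asq.symm ats c h5 hadj with
        h | h | h
      · exact h1 h
      · exact h2 h
      · exact h4 h
    · -- the third neighbour of `s`
      have h3s := h3 s hs
      obtain ⟨s', hs'⟩ : ∃ s', s' ∈ ((S.filter fun c => G.Adj c s).erase p).erase q := by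
        rw [← Finset.Nonempty, ← Finset.card_pos, Finset.card_erase_of_mem, Finset.card_erase_of_mem,
          h3s]
        · norm_num
        · exact Finset.mem_filter.mpr ⟨hp, asp.symm⟩
        · exact Finset.mem_erase.mpr ⟨apq.ne', Finset.mem_filter.mpr ⟨hq, asq.symm⟩⟩
      simp only [Finset.mem_erase, Finset.mem_filter] at hs'
      obtain ⟨k1, k2, k3, k4⟩ := hs'
      have k5 : s' ≠ t := by rintro rfl; exact ats k4
      have k6 : s' ∈ S' := (memS' s').mpr ⟨k2, k1, k4.ne, k5, k3⟩
      refine step2 G hf s p q t n1 n2 n3 n4 hst apq asp asq atp atq ats hcard s' k6 ?_ hp' hq'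
      intro c hc
      obtain ⟨h1, h2, h3', h4, h5⟩ := (memS' c).mp hc
      constructor
      · intro hadj
        rcases nin s p q s' hs hp hq k3 apq.ne (Ne.symm k2) (Ne.symm k1) asp.symm asq.symm k4 c h5
          hadj with h | h | h
        · exact absurd h h1
        · exact absurd h h2
        · exact h
      · rintro rfl
        exact k4

end Pool.Agent.N226.DG
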