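import Pool.Agent.N226.DG.C

set_option autoImplicit false

/-! # Complete graphs with four vertices -/

namespace Pool.Agent.N226.DG

/-- A progression of values `y` with difference `h ≠ 0`. -/
lemma ap3 (b c e y y1 y2 w w1 w2 : ℤ) (hb : 0 < b) (hc : 0 < c) (hbc : ¬IsSquare (b * c))
    (hrec : y1 + y2 = 2 * y) (hne : y1 ≠ y)
    (h0 : 4 * b * w ^ 2 = c * y ^ 2 - e) (h1 : 4 * b * w1 ^ 2 = c * y1 ^ 2 - e)
    (h2 : 4 * b * w2 ^ 2 = c * y2 ^ 2 - e) (Y : ℤ) (hY : 0 < Y) (hy : Y ≤ y) (hy1 : Y ≤ y1)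
    (hy2 : Y ≤ y2) (hbig : |b * e| * 4 < Y) : False := by
  set m := b * c with hm
  have hm1 : 1 ≤ m := by rw [hm]; exact mul_pos hb hc
  set r : ℝ := Real.sqrt m with hrdef
  have hmR : (1 : ℝ) ≤ m := by exact_mod_cast hm1
  have hr2 : r ^ 2 = m := Real.sq_sqrt (by linarith)
  have hr : 1 ≤ r := Real.one_le_sqrt.mpr hmR
  have g0 : (2 * b * |w|) ^ 2 = m * y ^ 2 - b * e := by
    rw [mul_pow, sq_abs, hm]; linear_combination b * h0
  have g1 : (2 * b * |w1|) ^ 2 = m * y1 ^ 2 - b * e := by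
    rw [mul_pow, sq_abs, hm]; linear_combination b * h1
  have g2 : (2 * b * |w2|) ^ 2 = m * y2 ^ 2 - b * e := by
    rw [mul_pow, sq_abs, hm]; linear_combination b * h2
  have n0 := near _ y m _ r hr hr2 (by positivity) (by linarith) g0
  have n1 := near _ y1 m _ r hr hr2 (by positivity) (by linarith) g1
  have n2 := near _ y2 m _ r hr hr2 (by positivity) (by linarith) g2
  have hYR : (0 : ℝ) < Y := by exact_mod_cast hY
  have hk := abs_nonneg (((b * e : ℤ)) : ℝ)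
  have m0 : |(((b * e : ℤ)) : ℝ)| / y ≤ |(((b * e : ℤ)) : ℝ)| / Y :=
    div_le_div_of_nonneg_left hk hYR (by exact_mod_cast hy)
  have m1 : |(((b * e : ℤ)) : ℝ)| / y1 ≤ |(((b * e : ℤ)) : ℝ)| / Y :=
    div_le_div_of_nonneg_left hk hYR (by exact_mod_cast hy1)
  have m2 : |(((b * e : ℤ)) : ℝ)| / y2 ≤ |(((b * e : ℤ)) : ℝ)| / Y :=
    div_le_div_of_nonneg_left hk hYR (by exact_mod_cast hy2)
  set κ := |(((b * e : ℤ)) : ℝ)| / Y with hκ
  have hκ1 : κ * 4 < 1 := by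
    rw [hκ, div_mul_eq_mul_div, div_lt_iff₀ hYR, one_mul]
    exact_mod_cast hbig
  set G0 : ℤ := 2 * b * |w| with hG0
  set G1 : ℤ := 2 * b * |w1| with hG1
  set G2 : ℤ := 2 * b * |w2| with hG2
  have hsum : |((G1 + G2 - 2 * G0 : ℤ) : ℝ)| < 1 := by
    have hrecR : (y1 : ℝ) + y2 = 2 * y := by exact_mod_cast hrec
    have e1 : ((G1 + G2 - 2 * G0 : ℤ) : ℝ) = ((G1 : ℝ) - r * y1) +
        ((G2 : ℝ) - r * y2) - 2 * ((G0 : ℝ) - r * y) := by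
      push_cast
      linear_combination r * hrecR
    rw [e1]
    refine lt_of_le_of_lt (abs_sub _ _) ?_
    refine lt_of_le_of_lt (add_le_add (abs_add_le _ _) le_rfl) ?_
    rw [abs_mul, abs_of_pos (a := (2 : ℝ)) (by norm_num)]
    linarith [n1.trans m1, n2.trans m2, n0.trans m0]
  have hR : G1 + G2 - 2 * G0 = 0 := by
    have : |G1 + G2 - 2 * G0| < 1 := by exact_mod_cast hsum
    exact Int.abs_lt_one_iff.mp this
  -- now `(G1 - G0)² = m (y1 - y)²`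
  have hfin : (G1 - G0) ^ 2 = (y1 - y) ^ 2 * m := by
    have a1 : G2 = 2 * G0 - G1 := by linarith
    have a2 : y2 = 2 * y - y1 := by linarith
    rw [a1, a2] at g2
    nlinarith [g0, g1, g2]
  apply hbc
  have hd : (y1 - y) ^ 2 ∣ (G1 - G0) ^ 2 := ⟨m, hfin⟩
  obtain ⟨k, hk'⟩ := (Int.pow_dvd_pow_iff (by norm_num)).mp hd
  refine ⟨k, ?_⟩
  have hL2 : (y1 - y) ^ 2 ≠ 0 := pow_ne_zero _ (sub_ne_zero.mpr hne)
  apply mul_left_cancel₀ hL2
  rw [hk'] at hfin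
  linarith

/-- The four labels: `4 b`, and for a natural number `k`: -/
def kb (b : ℤ) (k : ℕ) : ℤ := 4 * b * k ^ 2 + 2 * k

def kr (b : ℤ) (k : ℕ) : ℤ := 4 * b * k ^ 2 + (4 * b + 2) * k + 1

def kd (b : ℤ) (k : ℕ) : ℤ := 4 * kr b k * (4 * b * kr b k + 1)

lemma kb_id (b : ℤ) (k : ℕ) : 4 * b * kb b k + 1 = (4 * b * k + 1) ^ 2 := by unfold kb; ring

lemma kd_id (b : ℤ) (k : ℕ) : 4 * b * kd b k + 1 = (8 * b * kr b k + 1) ^ 2 := by unfold kd; ring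

lemma kbb_id (b : ℤ) (k : ℕ) : kb b k * kb b (k + 1) + 1 = kr b k ^ 2 := by
  unfold kb kr; push_cast; ring

lemma kbd_id (b : ℤ) (k : ℕ) :
    kb b k * kd b k + 1 = (2 * kr b k * (4 * b * k + 1) - 1) ^ 2 := by
  unfold kb kd kr; ring

lemma kcd_id (b : ℤ) (k : ℕ) :
    kb b (k + 1) * kd b k + 1 = (2 * kr b k * (4 * b * (k + 1) + 1) + 1) ^ 2 := by
  unfold kb kd kr; push_cast; ring

/-- `c * (4 b k² + 2 k) + δ` is a square. -/
def Q1 (b c δ : ℤ) (k : ℕ) : Prop := IsSquare (c * kb b k + δ)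

def Q2 (b c δ : ℤ) (k : ℕ) : Prop := IsSquare (c * kd b k + δ)

lemma rareQ1 (b c δ : ℤ) (hb : 0 < b) (hc : 0 < c) (hbc : ¬IsSquare (b * c)) (j : ℕ) (hj : 0 < j) :
    ∃ N : ℕ, ∀ n, N ≤ n → ¬(Q1 b c δ n ∧ Q1 b c δ (n + j) ∧ Q1 b c δ (n + 2 * j)) := by
  set e := c - 4 * b * δ with he
  refine ⟨(|b * e| * 4 + 1).toNat, ?_⟩
  rintro n hn ⟨⟨w2, h2⟩, ⟨w, h0⟩, ⟨w1, h1⟩⟩
  have hn' := Int.toNat_le.mp hn
  have hj' : (0 : ℤ) < j := by exact_mod_cast hj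
  have hK := abs_nonneg (b * e)
  have hn0 : (0 : ℤ) < n := by linarith
  have key : ∀ (k : ℕ) (w : ℤ), c * kb b k + δ = w * w →
      4 * b * w ^ 2 = c * (4 * b * k + 1) ^ 2 - e := by
    intro k w h
    have := kb_id b k
    rw [he]
    linear_combination (-4 * b) * h + c * this
  refine ap3 b c e (4 * b * ((n + j : ℕ) : ℤ) + 1) (4 * b * ((n + 2 * j : ℕ) : ℤ) + 1)
    (4 * b * (n : ℤ) + 1) w w1 w2 hb hc hbc (by push_cast; ring) ?_ (key _ _ h0) (key _ _ h1)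
    (key _ _ h2) n hn0 ?_ ?_ ?_ (by linarith)
  · push_cast
    intro h
    have : 4 * b * (j : ℤ) = 0 := by linarith
    have := mul_pos (mul_pos (by norm_num : (0 : ℤ) < 4) hb) hj'
    linarith
  · push_cast; nlinarith
  · push_cast; nlinarith
  · nlinarith

lemma rareQ2 (b c δ : ℤ) (hb : 0 < b) (hc : 0 < c) (hbc : ¬IsSquare (b * c)) (j : ℕ) (hj : 0 < j) :
    ∃ N : ℕ, ∀ n, N ≤ n → ¬(Q2 b c δ n ∧ Q2 b c δ (n + j) ∧ Q2 b c δ (n + 2 * j)) := by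
  set e := c - 4 * b * δ with he
  set L : ℤ := -(64 * b ^ 2 * j ^ 2) with hL
  have hj' : (0 : ℤ) < j := by exact_mod_cast hj
  have hL0 : L ≠ 0 := by
    rw [hL, neg_ne_zero]; positivity
  set K := |b * e| * (2 + 2 * 1) * (1 + 2 * |L| * (b * c + 1)) with hK
  have hK0 : 0 ≤ K := by
    have := mul_pos hb hc
    positivity
  refine ⟨(K + 1).toNat, ?_⟩
  rintro n hn ⟨⟨w2, h2⟩, ⟨w, h0⟩, ⟨w1, h1⟩⟩
  have hn' := Int.toNat_le.mp hn
  have hn0 : (0 : ℤ) < n := by linarith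
  have key : ∀ (k : ℕ) (w : ℤ), c * kd b k + δ = w * w →
      4 * b * w ^ 2 = c * (8 * b * kr b k + 1) ^ 2 - e := by
    intro k w h
    have := kd_id b k
    rw [he]
    linear_combination (-4 * b) * h + c * this
  have big : ∀ k : ℕ, n ≤ k → (n : ℤ) ≤ 8 * b * kr b k + 1 := by
    intro k hk
    have e3 : (n : ℤ) ≤ k := by exact_mod_cast hk
    unfold kr
    have : (k : ℤ) ≤ 4 * b * k ^ 2 + (4 * b + 2) * k + 1 := by
      have := Int.natCast_nonneg k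
      have h5 : 0 ≤ 4 * b * (k : ℤ) ^ 2 := by positivity
      nlinarith
    nlinarith
  refine ap2 b c e 1 L (8 * b * kr b (n + j) + 1) (8 * b * kr b (n + 2 * j) + 1)
    (8 * b * kr b n + 1) w w1 w2 hb hc one_pos hL0 hbc ?_ (key _ _ h0) (key _ _ h1)
    (key _ _ h2) n hn0 (big _ (by omega)) (big _ (by omega)) (big _ le_rfl) (by linarith)
  rw [hL]
  unfold kr
  push_cast
  ring

/-- A new complete graph on four vertices, one label `4 b` of which is given. -/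
theorem extK (b : ℤ) (hb : 0 < b) (C : Finset ℤ) (hC : ∀ c ∈ C, 0 < c ∧ ¬IsSquare (b * c)) :
    ∃ x y w : ℤ, 0 < x ∧ 0 < y ∧ 0 < w ∧ IsSquare (4 * b * x + 1) ∧ IsSquare (4 * b * y + 1) ∧
      IsSquare (4 * b * w + 1) ∧ IsSquare (x * y + 1) ∧ IsSquare (x * w + 1) ∧
      IsSquare (y * w + 1) ∧
      ∀ c ∈ C, ¬IsSquare (c * x) ∧ ¬IsSquare (c * y) ∧ ¬IsSquare (c * w) ∧
        ¬IsSquare (c * x + 1) ∧ ¬IsSquare (c * y + 1) ∧ ¬IsSquare (c * w + 1) := by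
  classical
  let S : ({c // c ∈ C} × Fin 6) → ℕ → Prop := fun k n =>
    match k with
    | (c, 0) => Q1 b c 0 n
    | (c, 1) => Q1 b c 1 n
    | (c, 2) => Q1 b c 0 (n + 1)
    | (c, 3) => Q1 b c 1 (n + 1)
    | (c, 4) => Q2 b c 0 n
    | (c, 5) => Q2 b c 1 n
  have shift : ∀ (c δ : ℤ), 0 < c → ¬IsSquare (b * c) → ∀ j, 0 < j →
      ∃ N : ℕ, ∀ n, N ≤ n → ¬(Q1 b c δ (n + 1) ∧ Q1 b c δ (n + j + 1) ∧ Q1 b c δ (n + 2 * j + 1)) := by
    intro c δ h1 h2 j hj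
    obtain ⟨N, hN⟩ := rareQ1 b c δ hb h1 h2 j hj
    refine ⟨N, fun n hn h => hN (n + 1) (by omega) ⟨h.1, ?_, ?_⟩⟩
    · rw [show n + 1 + j = n + j + 1 by ring]; exact h.2.1
    · rw [show n + 1 + 2 * j = n + 2 * j + 1 by ring]; exact h.2.2
  obtain ⟨n, hn, h⟩ := avoid S (by
    rintro ⟨⟨c, hc⟩, i⟩ j hj
    obtain ⟨p1, p2⟩ := hC c hc
    fin_cases i
    · exact rareQ1 b c 0 hb p1 p2 j hj
    · exact rareQ1 b c 1 hb p1 p2 j hj
    · exact shift c 0 p1 p2 j hj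
    · exact shift c 1 p1 p2 j hj
    · exact rareQ2 b c 0 hb p1 p2 j hj
    · exact rareQ2 b c 1 hb p1 p2 j hj) 1
  have hn1 : (1 : ℤ) ≤ n := by exact_mod_cast hn
  have hr : 0 < kr b n := by unfold kr; positivity
  refine ⟨kb b n, kb b (n + 1), kd b n, by unfold kb; positivity, by unfold kb; positivity,
    by unfold kd; positivity, ?_, ?_, ?_, ?_, ?_, ?_, ?_⟩
  · rw [kb_id]; exact ⟨_, sq _⟩
  · rw [kb_id]; exact ⟨_, sq _⟩
  · rw [kd_id]; exact ⟨_, sq _⟩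
  · rw [kbb_id]; exact ⟨_, sq _⟩
  · rw [kbd_id]; exact ⟨_, sq _⟩
  · rw [kcd_id]; exact ⟨_, sq _⟩
  · intro c hc
    have q0 := h (⟨c, hc⟩, 0)
    have q1 := h (⟨c, hc⟩, 1)
    have q2 := h (⟨c, hc⟩, 2)
    have q3 := h (⟨c, hc⟩, 3)
    have q4 := h (⟨c, hc⟩, 4)
    have q5 := h (⟨c, hc⟩, 5)
    simp only [S, Q1, Q2, add_zero] at q0 q1 q2 q3 q4 q5
    exact ⟨q0, q2, q4, q1, q3, q5⟩

end Pool.Agent.N226.DG
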